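import Mathlib

/-!
The open unit square is not paradoxical under the group generated by the two matrices
`(1 2; 0 1)` and `(1 0; 2 1)`, and more generally under no group of integral matrices of
determinant one. The obstruction sits near the corners of the square: there only an amenable
piece of the group keeps points inside the square.
-/

set_option autoImplicit false

namespace Pool.Agent.Results.MP_104382_al.NotSanovParadoxical

open Matrix

/-- The special linear group of real matrices of size two. -/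
abbrev SL2R := Matrix.SpecialLinearGroup (Fin 2) ℝ

/-- A set `E` of points of the plane is `G`-paradoxical, for a group `G` of real matrices of
determinant one acting linearly: there are positive integers `n`, `m`, pairwise disjoint subsets
`A 0, ..., A (n - 1), B 0, ..., B (m - 1)` of `E` and elements `g i`, `h j` of `G` such that `E` is
the union of the images `g i (A i)` and also the union of the images `h j (B j)`. -/
def IsParadoxical (G : Subgroup SL2R) (E : Set (Fin 2 → ℝ)) : Prop :=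
  ∃ (n m : ℕ) (A : Fin n → Set (Fin 2 → ℝ)) (B : Fin m → Set (Fin 2 → ℝ))
    (g : Fin n → SL2R) (h : Fin m → SL2R),
    0 < n ∧ 0 < m ∧ (∀ i, g i ∈ G) ∧ (∀ j, h j ∈ G) ∧
    (∀ i, A i ⊆ E) ∧ (∀ j, B j ⊆ E) ∧
    Pairwise (fun i i' => Disjoint (A i) (A i')) ∧
    Pairwise (fun j j' => Disjoint (B j) (B j')) ∧
    (∀ i j, Disjoint (A i) (B j)) ∧
    E = ⋃ i, (fun v => (g i : Matrix (Fin 2) (Fin 2) ℝ).mulVec v) '' A i ∧
    E = ⋃ j, (fun v => (h j : Matrix (Fin 2) (Fin 2) ℝ).mulVec v) '' B j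

/-- The open unit square. -/
def square : Set (Fin 2 → ℝ) := {v | ∀ k, 0 < v k ∧ v k < 1}

/-- The matrix `(1 2; 0 1)`. -/
def a : SL2R := ⟨!![1, 2; 0, 1], by simp⟩

/-- The matrix `(1 0; 2 1)`. -/
def b : SL2R := ⟨!![1, 0; 2, 1], by simp⟩

/-- The group generated by `a` and `b`. -/
def F : Subgroup SL2R := Subgroup.closure {a, b}

/-- The group of all integral matrices of determinant one, as a group of real matrices. -/
def SL2Z : Subgroup SL2R :=
  (Matrix.SpecialLinearGroup.map (n := Fin 2) (Int.castRingHom ℝ)).range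

/-- `a` over the integers -/
def aZ : Matrix.SpecialLinearGroup (Fin 2) ℤ := ⟨!![1, 2; 0, 1], by simp⟩

/-- `b` over the integers -/
def bZ : Matrix.SpecialLinearGroup (Fin 2) ℤ := ⟨!![1, 0; 2, 1], by simp⟩

theorem map_aZ : Matrix.SpecialLinearGroup.map (n := Fin 2) (Int.castRingHom ℝ) aZ = a := by
  apply Matrix.SpecialLinearGroup.ext
  intro i j
  rw [Matrix.SpecialLinearGroup.map_apply_coe]
  fin_cases i <;> fin_cases j <;> simp [aZ, a]

theorem map_bZ : Matrix.SpecialLinearGroup.map (n := Fin 2) (Int.castRingHom ℝ) bZ = b := by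
  apply Matrix.SpecialLinearGroup.ext
  intro i j
  rw [Matrix.SpecialLinearGroup.map_apply_coe]
  fin_cases i <;> fin_cases j <;> simp [bZ, b]

theorem F_le : F ≤ SL2Z := by
  unfold F
  rw [Subgroup.closure_le]
  intro x hx
  rcases hx with rfl | hx
  · exact ⟨aZ, map_aZ⟩
  · rw [Set.mem_singleton_iff] at hx
    subst hx
    exact ⟨bZ, map_bZ⟩

/-- the test points near the two corners, scaled by `M` -/
def num (M : ℤ) (c : Bool) (j : ℤ) : ℤ × ℤ := if c then (M - j - 1, M - j) else (M - j, 1)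

/-- the test points near the two corners -/
noncomputable def pt (M : ℤ) (c : Bool) (j : ℤ) : Fin 2 → ℝ :=
  ![((num M c j).1 : ℝ) / M, ((num M c j).2 : ℝ) / M]

theorem mem_square_pt {M : ℤ} (hM : 0 < M) {x y : ℤ} :
    (![(x : ℝ) / M, (y : ℝ) / M] : Fin 2 → ℝ) ∈ square ↔ (0 < x ∧ x < M) ∧ 0 < y ∧ y < M := by
  have hM' : (0 : ℝ) < M := by exact_mod_cast hM
  constructor
  · intro h
    have h0 := h 0
    have h1 := h 1
    simp only [Matrix.cons_val_zero, Matrix.cons_val_one] at h0 h1
    rw [div_pos_iff_of_pos_right hM', div_lt_one hM'] at h0 h1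
    exact ⟨⟨by exact_mod_cast h0.1, by exact_mod_cast h0.2⟩,
      by exact_mod_cast h1.1, by exact_mod_cast h1.2⟩
  · rintro ⟨⟨h1, h2⟩, h3, h4⟩ k
    fin_cases k
    · simp only [Fin.zero_eta, Matrix.cons_val_zero]
      rw [div_pos_iff_of_pos_right hM', div_lt_one hM']
      exact ⟨by exact_mod_cast h1, by exact_mod_cast h2⟩
    · show 0 < (y : ℝ) / M ∧ (y : ℝ) / M < 1
      rw [div_pos_iff_of_pos_right hM', div_lt_one hM']
      exact ⟨by exact_mod_cast h3, by exact_mod_cast h4⟩

theorem int_step {M K J j p q : ℤ} (hj2 : j ≤ J) (hq : |q| ≤ K) (hM : 2 * (J + K + 2) ≤ M) (h1 : 0 < p * (M - j) + q)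
    (h2 : p * (M - j) + q < M) : p = 0 ∨ p = 1 := by
  obtain ⟨q1, q2⟩ := abs_le.mp hq
  have hpos : 0 < M - j := by omega
  rcases lt_trichotomy p 0 with h | h | h
  · exfalso
    have : p * (M - j) ≤ -1 * (M - j) := by
      apply mul_le_mul_of_nonneg_right _ hpos.le
      omega
    omega
  · left; exact h
  · right
    by_contra hp
    have : 2 * (M - j) ≤ p * (M - j) := by
      apply mul_le_mul_of_nonneg_right _ hpos.le
      omega
    omega

/-- The image of a test point under an integral matrix with small entries is a test point, if it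
lies in the square. -/
theorem step {M K J : ℤ} (hM : 2 * (J + K + 2) ≤ M)
    {α β γ δ : ℤ} (hdet : α * δ - β * γ = 1) (hα : |α| ≤ K) (hβ : |β| ≤ K) (hγ : |γ| ≤ K)
    (hδ : |δ| ≤ K) (c : Bool) {j : ℤ} (hj1 : 1 ≤ j) (hj2 : j ≤ J)
    (hx : 0 < α * (num M c j).1 + β * (num M c j).2 ∧ α * (num M c j).1 + β * (num M c j).2 < M)
    (hy : 0 < γ * (num M c j).1 + δ * (num M c j).2 ∧ γ * (num M c j).1 + δ * (num M c j).2 < M) :
    ∃ (c' : Bool) (j' : ℤ), 1 ≤ j' ∧ j' ≤ J + K + 1 ∧
      α * (num M c j).1 + β * (num M c j).2 = (num M c' j').1 ∧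
      γ * (num M c j).1 + δ * (num M c j).2 = (num M c' j').2 := by
  obtain ⟨a1, a2⟩ := abs_le.mp hα
  obtain ⟨b1, b2⟩ := abs_le.mp hβ
  obtain ⟨c1, c2⟩ := abs_le.mp hγ
  obtain ⟨d1, d2⟩ := abs_le.mp hδ
  cases c with
  | true =>
    simp only [num, if_true] at hx hy ⊢
    have ex : α * (M - j - 1) + β * (M - j) = (α + β) * (M - j) + -α := by ring
    have ey : γ * (M - j - 1) + δ * (M - j) = (γ + δ) * (M - j) + -γ := by ring
    rw [ex] at hx ⊢
    rw [ey] at hy ⊢
    have s01 := int_step hj2 (by rw [abs_neg]; exact hα) hM hx.1 hx.2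
    have t01 := int_step hj2 (by rw [abs_neg]; exact hγ) hM hy.1 hy.2
    have hd : α * (γ + δ) - (α + β) * γ = 1 := by rw [← hdet]; ring
    rcases s01 with hs | hs <;> rcases t01 with ht | ht
    · rw [hs, ht] at hd; omega
    · rw [hs, ht] at hd
      rw [hs] at hx
      omega
    · rw [hs, ht] at hd
      rw [hs] at hx
      refine ⟨false, j + α, by omega, by omega, ?_, ?_⟩
      · simp only [Bool.false_eq_true, if_false]; rw [hs]; ring
      · simp only [Bool.false_eq_true, if_false]; rw [ht]; omega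
    · rw [hs, ht] at hd
      rw [ht] at hy
      refine ⟨true, j + γ, by omega, by omega, ?_, ?_⟩
      · simp only [if_true]; rw [hs]; omega
      · simp only [if_true]; rw [ht]; ring
  | false =>
    simp only [num, Bool.false_eq_true, if_false, mul_one] at hx hy ⊢
    have s01 := int_step hj2 hβ hM hx.1 hx.2
    have t01 := int_step hj2 hδ hM hy.1 hy.2
    rcases s01 with hs | hs <;> rcases t01 with ht | ht
    · rw [hs, ht] at hdet; omega
    · rw [hs, ht] at hdet
      rw [hs] at hx
      omega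
    · rw [hs, ht] at hdet
      rw [hs] at hx
      refine ⟨false, j - β, by omega, by omega, ?_, ?_⟩
      · simp only [Bool.false_eq_true, if_false]; rw [hs]; ring
      · simp only [Bool.false_eq_true, if_false]; rw [ht]; omega
    · rw [hs, ht] at hdet
      rw [ht] at hy
      refine ⟨true, j - β - 1, by omega, by omega, ?_, ?_⟩
      · simp only [if_true]; rw [hs]; ring
      · simp only [if_true]; rw [ht]; omega

theorem pt_inj {M : ℤ} (hM : 0 < M) {c c' : Bool} {j j' : ℤ} (hj : j < M - 1) (hj' : j' < M - 1)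
    (h : pt M c j = pt M c' j') : c = c' ∧ j = j' := by
  have hM' : (M : ℝ) ≠ 0 := by exact_mod_cast hM.ne'
  have h0 := congrFun h 0
  have h1 := congrFun h 1
  simp only [pt, Matrix.cons_val_zero, Matrix.cons_val_one] at h0 h1
  rw [div_left_inj' hM'] at h0 h1
  have h0' : (num M c j).1 = (num M c' j').1 := by exact_mod_cast h0
  have h1' : (num M c j).2 = (num M c' j').2 := by exact_mod_cast h1
  cases c <;> cases c' <;> simp only [num, if_true, Bool.false_eq_true, if_false] at h0' h1' ⊢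
  · exact ⟨trivial, by omega⟩
  · omega
  · omega
  · exact ⟨trivial, by omega⟩

theorem pt_mem {M : ℤ} {c : Bool} {j : ℤ} (h1 : 1 ≤ j) (h2 : j + 1 < M) : pt M c j ∈ square := by
  unfold pt
  rw [mem_square_pt (by omega)]
  cases c <;> simp only [num, if_true, Bool.false_eq_true, if_false] <;> omega

/-- Pulling back a test point by an integral matrix. -/
theorem pull {M K J : ℤ} (hJ : 0 ≤ J) (hK : 0 ≤ K) (hM : 2 * (J + K + 2) ≤ M)
    {g : SL2R} (hg : g ∈ SL2Z) (hb : ∀ i j, |(g : Matrix (Fin 2) (Fin 2) ℝ) i j| ≤ K)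
    {x : Fin 2 → ℝ} (hx : x ∈ square) (c : Bool) {j : ℤ} (hj1 : 1 ≤ j) (hj2 : j ≤ J)
    (he : (g : Matrix (Fin 2) (Fin 2) ℝ).mulVec x = pt M c j) :
    ∃ (c' : Bool) (j' : ℤ), 1 ≤ j' ∧ j' ≤ J + K + 1 ∧ x = pt M c' j' := by
  obtain ⟨z, rfl⟩ := hg
  have hM0 : 0 < M := by omega
  have hM' : (M : ℝ) ≠ 0 := by exact_mod_cast hM0.ne'
  have hz : ∀ i j, |z.1 i j| ≤ K := by
    intro i j
    have := hb i j
    simp only [Matrix.SpecialLinearGroup.map_apply_coe, RingHom.mapMatrix_apply, Matrix.map_apply,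
      Int.coe_castRingHom] at this
    exact_mod_cast this
  have hdet : z.1 0 0 * z.1 1 1 - z.1 0 1 * z.1 1 0 = 1 := by
    have := z.2
    rw [Matrix.det_fin_two] at this
    exact this
  have hdetR : (z.1 0 0 : ℝ) * z.1 1 1 - z.1 0 1 * z.1 1 0 = 1 := by exact_mod_cast hdet
  have e0 := congrFun he 0
  have e1 := congrFun he 1
  simp only [Matrix.SpecialLinearGroup.map_apply_coe, RingHom.mapMatrix_apply, Matrix.mulVec,
    dotProduct, Matrix.map_apply, Int.coe_castRingHom, Fin.sum_univ_two, pt,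
    Matrix.cons_val_zero, Matrix.cons_val_one] at e0 e1
  have x0 : x 0 = ((z.1 1 1 * (num M c j).1 + (-z.1 0 1) * (num M c j).2 : ℤ) : ℝ) / M := by
    push_cast
    have : x 0 = (z.1 1 1 : ℝ) * ((z.1 0 0 : ℝ) * x 0 + z.1 0 1 * x 1) -
        z.1 0 1 * ((z.1 1 0 : ℝ) * x 0 + z.1 1 1 * x 1) := by
      linear_combination (-x 0) * hdetR
    rw [this, e0, e1]
    ring
  have x1 : x 1 = (((-z.1 1 0) * (num M c j).1 + z.1 0 0 * (num M c j).2 : ℤ) : ℝ) / M := by
    push_cast
    have : x 1 = (z.1 0 0 : ℝ) * ((z.1 1 0 : ℝ) * x 0 + z.1 1 1 * x 1) -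
        z.1 1 0 * ((z.1 0 0 : ℝ) * x 0 + z.1 0 1 * x 1) := by
      linear_combination (-x 1) * hdetR
    rw [this, e0, e1]
    ring
  have hxe : x = ![((z.1 1 1 * (num M c j).1 + (-z.1 0 1) * (num M c j).2 : ℤ) : ℝ) / M,
      (((-z.1 1 0) * (num M c j).1 + z.1 0 0 * (num M c j).2 : ℤ) : ℝ) / M] := by
    funext k
    fin_cases k
    · exact x0
    · exact x1
  rw [hxe, mem_square_pt hM0] at hx
  obtain ⟨c', j', h1, h2, h3, h4⟩ := step hM (α := z.1 1 1) (β := -z.1 0 1)
    (γ := -z.1 1 0) (δ := z.1 0 0) (by linear_combination hdet) (hz _ _) (by rw [abs_neg]; exact hz _ _)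
    (by rw [abs_neg]; exact hz _ _) (hz _ _) c hj1 hj2 hx.1 hx.2
  refine ⟨c', j', h1, h2, ?_⟩
  rw [hxe, h3, h4]
  rfl

/-- The open unit square is paradoxical under no group of integral matrices of determinant one; in
particular it is not paradoxical under the group generated by `(1 2; 0 1)` and `(1 0; 2 1)`. -/
theorem result :
    ¬ IsParadoxical F square ∧ ∀ G : Subgroup SL2R, G ≤ SL2Z → ¬ IsParadoxical G square := by
  have main : ∀ G : Subgroup SL2R, G ≤ SL2Z → ¬ IsParadoxical G square := by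
    rintro G hG ⟨n, m, A, B, g, h, -, -, hg, hh, hA, hB, dA, dB, dAB, eA, eB⟩
    -- a bound for the entries
    obtain ⟨K, hK, hKg, hKh⟩ : ∃ K : ℤ, 0 ≤ K ∧
        (∀ i k l, |(g i : Matrix (Fin 2) (Fin 2) ℝ) k l| ≤ K) ∧
        ∀ j k l, |(h j : Matrix (Fin 2) (Fin 2) ℝ) k l| ≤ K := by
      obtain ⟨K1, h1⟩ := (Set.finite_range fun t : Fin n × Fin 2 × Fin 2 =>
        |(g t.1 : Matrix (Fin 2) (Fin 2) ℝ) t.2.1 t.2.2|).bddAbove
      obtain ⟨K2, h2⟩ := (Set.finite_range fun t : Fin m × Fin 2 × Fin 2 =>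
        |(h t.1 : Matrix (Fin 2) (Fin 2) ℝ) t.2.1 t.2.2|).bddAbove
      refine ⟨max 0 (max ⌈K1⌉ ⌈K2⌉), le_max_left _ _, fun i k l => ?_, fun j k l => ?_⟩
      · have := h1 ⟨(i, k, l), rfl⟩
        refine this.trans ((Int.le_ceil K1).trans ?_)
        exact_mod_cast (le_max_left _ _).trans (le_max_right _ _)
      · have := h2 ⟨(j, k, l), rfl⟩
        refine this.trans ((Int.le_ceil K2).trans ?_)
        exact_mod_cast (le_max_right _ _).trans (le_max_right _ _)
    obtain ⟨k, rfl⟩ := Int.eq_ofNat_of_zero_le hK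
    -- the parameters
    let J : ℕ := k + 2
    let M : ℤ := 2 * ((J : ℤ) + k + 2)
    have hJ : (0 : ℤ) ≤ J := by positivity
    have hM : 2 * ((J : ℤ) + k + 2) ≤ M := le_rfl
    -- the two pull backs
    have key1 : ∀ t : Bool × Fin J, ∃ s : Bool × Fin (J + k + 1), ∃ i : Fin n,
        pt M s.1 (s.2 + 1) ∈ A i ∧
          (g i : Matrix (Fin 2) (Fin 2) ℝ).mulVec (pt M s.1 (s.2 + 1)) = pt M t.1 (t.2 + 1) := by
      rintro ⟨c, j⟩
      have hj := j.2
      have hmem : pt M c (j + 1) ∈ square := pt_mem (by omega) (by omega)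
      have hmem' := hmem
      rw [eA] at hmem'
      obtain ⟨i, x, hx, he⟩ := Set.mem_iUnion.mp hmem'
      obtain ⟨c', j', h1, h2, rfl⟩ := pull hJ hK hM (hG (hg i)) (hKg i) (hA i hx) c
        (j := (j : ℤ) + 1) (by omega) (by omega) he
      refine ⟨(c', ⟨(j' - 1).toNat, by omega⟩), i, ?_⟩
      have e : (((⟨(j' - 1).toNat, by omega⟩ : Fin (J + k + 1)) : ℕ) : ℤ) + 1 = j' := by
        simp only [Int.toNat_of_nonneg (show 0 ≤ j' - 1 by omega)]
        ring
      simp only [e]
      exact ⟨hx, he⟩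
    have key2 : ∀ t : Bool × Fin J, ∃ s : Bool × Fin (J + k + 1), ∃ i : Fin m,
        pt M s.1 (s.2 + 1) ∈ B i ∧
          (h i : Matrix (Fin 2) (Fin 2) ℝ).mulVec (pt M s.1 (s.2 + 1)) = pt M t.1 (t.2 + 1) := by
      rintro ⟨c, j⟩
      have hj := j.2
      have hmem : pt M c (j + 1) ∈ square := pt_mem (by omega) (by omega)
      have hmem' := hmem
      rw [eB] at hmem'
      obtain ⟨i, x, hx, he⟩ := Set.mem_iUnion.mp hmem'
      obtain ⟨c', j', h1, h2, rfl⟩ := pull hJ hK hM (hG (hh i)) (hKh i) (hB i hx) c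
        (j := (j : ℤ) + 1) (by omega) (by omega) he
      refine ⟨(c', ⟨(j' - 1).toNat, by omega⟩), i, ?_⟩
      have e : (((⟨(j' - 1).toNat, by omega⟩ : Fin (J + k + 1)) : ℕ) : ℤ) + 1 = j' := by
        simp only [Int.toNat_of_nonneg (show 0 ≤ j' - 1 by omega)]
        ring
      simp only [e]
      exact ⟨hx, he⟩
    choose f1 i1 f1A f1e using key1
    choose f2 i2 f2B f2e using key2
    have ptinj : ∀ t t' : Bool × Fin J, pt M t.1 (t.2 + 1) = pt M t'.1 (t'.2 + 1) → t = t' := by
      rintro ⟨c, j⟩ ⟨c', j'⟩ h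
      have hj := j.2
      have hj' := j'.2
      simp only at h
      obtain ⟨h1, h2⟩ := pt_inj (by omega) (by omega) (by omega) h
      have h3 : j = j' := by ext; omega
      rw [h1, h3]
    have inj1 : Function.Injective f1 := by
      intro t t' ht
      have h1 := f1A t
      have h2 := f1A t'
      rw [ht] at h1
      have hi : i1 t = i1 t' := by
        by_contra hne
        exact Set.disjoint_left.mp (dA hne) h1 h2
      apply ptinj
      rw [← f1e t, ← f1e t', ht, hi]
    have inj2 : Function.Injective f2 := by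
      intro t t' ht
      have h1 := f2B t
      have h2 := f2B t'
      rw [ht] at h1
      have hi : i2 t = i2 t' := by
        by_contra hne
        exact Set.disjoint_left.mp (dB hne) h1 h2
      apply ptinj
      rw [← f2e t, ← f2e t', ht, hi]
    have hinj : Function.Injective (Sum.elim f1 f2) := by
      apply Function.Injective.sumElim inj1 inj2
      intro t t' ht
      have h1 := f1A t
      rw [ht] at h1
      exact Set.disjoint_left.mp (dAB _ _) h1 (f2B t')
    have hcard := Fintype.card_le_of_injective _ hinj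
    simp only [Fintype.card_sum, Fintype.card_prod, Fintype.card_bool, Fintype.card_fin] at hcard
    simp only [J] at hcard
    omega
  exact ⟨main F F_le, main⟩

end Pool.Agent.Results.MP_104382_al.NotSanovParadoxical
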